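import Mathlib
import Pool.Agent.Y674.HM.Mord

/-!
Hall's conjecture with the optimal exponents for the integral points of Mordell curves lying in
the image of the 3-isogeny over a fixed number field.
-/

set_option autoImplicit false

namespace Pool.Agent.Results.MP_9d7cd1_nt.IsogenyImage

open Pool.Agent.Y674.HM

/-- Let `K` be a number field. For every `ε > 0` there is a constant `C` such that every integral
point `(x, y)` of every Mordell curve `y ^ 2 = x ^ 3 + d`, `d ≠ 0`, which is the image of a point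
`(X, Y)` with coordinates in `K`, `X ≠ 0`, of the curve `Y ^ 2 = X ^ 3 - 27 d` under the 3-isogeny
`(X, Y) ↦ ((X ^ 3 - 108 d) / (9 X ^ 2), Y (X ^ 3 + 216 d) / (27 X ^ 3))`, satisfies
`|x| ≤ C |d| ^ (1 + ε)` and `|y| ≤ C |d| ^ (3 / 2 + ε)`. The exponents `1` and `3 / 2` are best
possible: for arbitrarily large `|x|` there are such points with `|d| ≤ |x|` and
`|d| ^ 3 ≤ y ^ 2`. -/
theorem result (K : Type) [Field K] [NumberField K] :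
    (∀ ε : ℝ, 0 < ε → ∃ C : ℝ, ∀ d x y : ℤ, d ≠ 0 → y ^ 2 = x ^ 3 + d →
      (∃ X Y : K, X ≠ 0 ∧ Y ^ 2 = X ^ 3 - 27 * d ∧ 9 * X ^ 2 * x = X ^ 3 - 108 * d ∧
        27 * X ^ 3 * y = Y * (X ^ 3 + 216 * d)) →
      |(x : ℝ)| ≤ C * |(d : ℝ)| ^ (1 + ε) ∧ |(y : ℝ)| ≤ C * |(d : ℝ)| ^ (3 / 2 + ε)) ∧
    (∀ N : ℤ, ∃ d x y : ℤ, d ≠ 0 ∧ y ^ 2 = x ^ 3 + d ∧
      (∃ X Y : K, X ≠ 0 ∧ Y ^ 2 = X ^ 3 - 27 * d ∧ 9 * X ^ 2 * x = X ^ 3 - 108 * d ∧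
        27 * X ^ 3 * y = Y * (X ^ 3 + 216 * d)) ∧
      N ≤ |x| ∧ |d| ≤ |x| ∧ |d| ^ 3 ≤ y ^ 2) := by
  refine ⟨fun ε hε => isog K ε hε, fun N => ?_⟩
  obtain ⟨k, x, y, hk, hE, ⟨X, Y, hX, h1, h2, h3⟩, h4, h5, h6⟩ := isog_sharp K N
  refine ⟨k, x, y, hk, hE, ⟨X, Y, ?_, h1, h2, h3⟩, h4, h5, h6⟩
  rw [hX]
  norm_num

end Pool.Agent.Results.MP_9d7cd1_nt.IsogenyImage
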