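import Mathlib
import Pool.Agent.Y724.T4.ABQ

set_option autoImplicit false

/-!
# Hall's conjecture for the sparse coprime solutions of Mordell's equation, with the S-free part of d

Let `S` be a finite set of primes. For coprime integers `x`, `y` with `y ^ 2 = x ^ 3 + s d`, `s` an
integer `S`-unit, which are sums of at most `l` numbers `k u`, `u` an `S`-unit and `k` an integer of
absolute value at most `B max(|x|, |y|) ^ δ`, we prove `log |x| < (2 + ε) log |d| + C` and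
`log |y| < (3 + ε) log |d| + C`.
-/

namespace Pool.Agent.Results.MP_9d7cd1_nt.SparseSolutions

/-- `u` is an `S`-unit: plus or minus a product of powers (with integer exponents) of the primes in
`S` -/
def IsSUnit (S : Finset ℕ) (u : ℚ) : Prop :=
  ∃ (σ : ℤ) (e : ℕ → ℤ), (σ = 1 ∨ σ = -1) ∧ u = σ * ∏ p ∈ S, (p : ℚ) ^ e p

/-- the rational number `z` is a sum of `l` `S`-units with integer coefficients of absolute value at
most `R` -/
def IsSparse (S : Finset ℕ) (l : ℕ) (R : ℝ) (z : ℚ) : Prop :=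
  ∃ (u : Fin l → ℚ) (k : Fin l → ℤ), (∀ j, IsSUnit S (u j)) ∧ (∀ j, |(k j : ℝ)| ≤ R) ∧
    z = ∑ j, u j * k j

theorem isSUnit_one (S : Finset ℕ) : IsSUnit S 1 := ⟨1, fun _ => 0, Or.inl rfl, by simp⟩

theorem IsSUnit.mul {S : Finset ℕ} (hS : ∀ p ∈ S, p.Prime) {u v : ℚ} (hu : IsSUnit S u)
    (hv : IsSUnit S v) : IsSUnit S (u * v) := by
  obtain ⟨σ, e, hσ, rfl⟩ := hu
  obtain ⟨τ, f, hτ, rfl⟩ := hv
  refine ⟨σ * τ, fun p => e p + f p, ?_, ?_⟩
  · rcases hσ with rfl | rfl <;> rcases hτ with rfl | rfl <;> simp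
  · have h : ∏ p ∈ S, (p : ℚ) ^ (e p + f p) =
        (∏ p ∈ S, (p : ℚ) ^ e p) * ∏ p ∈ S, (p : ℚ) ^ f p := by
      rw [← Finset.prod_mul_distrib]
      refine Finset.prod_congr rfl fun p hp => ?_
      exact zpow_add₀ (by exact_mod_cast (hS p hp).ne_zero) _ _
    rw [h]
    push_cast
    ring

/-- sums of terms indexed by a small type -/
theorem of_fintype {S : Finset ℕ} {ι : Type} [Fintype ι] {l : ℕ} (hl : Fintype.card ι ≤ l) {R : ℝ}
    (hR : 0 ≤ R) (u : ι → ℚ) (k : ι → ℤ) (hu : ∀ j, IsSUnit S (u j)) (hk : ∀ j, |(k j : ℝ)| ≤ R)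
    {z : ℚ} (hz : z = ∑ j, u j * k j) : IsSparse S l R z := by
  classical
  obtain ⟨f⟩ : Nonempty (ι ↪ Fin l) := Function.Embedding.nonempty_of_card_le (by simpa using hl)
  refine ⟨fun j => if h : ∃ i, f i = j then u h.choose else 1,
    fun j => if h : ∃ i, f i = j then k h.choose else 0, fun j => ?_, fun j => ?_, ?_⟩
  · dsimp only
    split_ifs with h
    · exact hu _
    · exact isSUnit_one S
  · dsimp only
    split_ifs with h
    · exact hk _
    · simpa using hR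
  · rw [hz]
    refine Fintype.sum_of_injective f f.injective _ _ ?_ ?_
    · intro j hj
      have h : ¬ ∃ i, f i = j := fun ⟨i, hi⟩ => hj ⟨i, hi⟩
      simp [h]
    · intro i
      have h : ∃ i', f i' = f i := ⟨i, rfl⟩
      have h2 : h.choose = i := f.injective h.choose_spec
      simp only [dif_pos h, h2]

theorem IsSparse.mono {S : Finset ℕ} {l l' : ℕ} {R R' : ℝ} {z : ℚ} (h : IsSparse S l R z)
    (hl : l ≤ l') (hR : R ≤ R') (hR0 : 0 ≤ R') : IsSparse S l' R' z := by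
  obtain ⟨u, k, hu, hk, hz⟩ := h
  exact of_fintype (by simpa using hl) hR0 u k hu (fun j => (hk j).trans hR) hz

theorem IsSparse.add {S : Finset ℕ} {l l' : ℕ} {R : ℝ} (hR : 0 ≤ R) {z z' : ℚ}
    (h : IsSparse S l R z) (h' : IsSparse S l' R z') : IsSparse S (l + l') R (z + z') := by
  obtain ⟨u, k, hu, hk, hz⟩ := h
  obtain ⟨u', k', hu', hk', hz'⟩ := h'
  refine of_fintype (ι := Fin l ⊕ Fin l') (by simp) hR (Sum.elim u u') (Sum.elim k k') ?_ ?_ ?_
  · rintro (j | j)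
    · exact hu j
    · exact hu' j
  · rintro (j | j)
    · exact hk j
    · exact hk' j
  · rw [hz, hz', Fintype.sum_sum_type]
    rfl

theorem IsSparse.neg {S : Finset ℕ} {l : ℕ} {R : ℝ} {z : ℚ}
    (h : IsSparse S l R z) : IsSparse S l R (-z) := by
  obtain ⟨u, k, hu, hk, hz⟩ := h
  refine ⟨u, fun j => -k j, hu, fun j => by simpa using hk j, ?_⟩
  rw [hz, ← Finset.sum_neg_distrib]
  exact Finset.sum_congr rfl fun j _ => by push_cast; ring

theorem IsSparse.mul {S : Finset ℕ} (hS : ∀ p ∈ S, p.Prime) {l l' : ℕ} {R R' : ℝ} (hR : 0 ≤ R)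
    (hR' : 0 ≤ R') {z z' : ℚ} (h : IsSparse S l R z) (h' : IsSparse S l' R' z') :
    IsSparse S (l * l') (R * R') (z * z') := by
  obtain ⟨u, k, hu, hk, hz⟩ := h
  obtain ⟨u', k', hu', hk', hz'⟩ := h'
  refine of_fintype (ι := Fin l × Fin l') (by simp) (mul_nonneg hR hR')
    (fun j => u j.1 * u' j.2) (fun j => k j.1 * k' j.2) ?_ ?_ ?_
  · exact fun j => (hu _).mul hS (hu' _)
  · intro j
    push_cast
    rw [abs_mul]
    exact mul_le_mul (hk _) (hk' _) (abs_nonneg _) hR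
  · rw [hz, hz', Finset.sum_mul_sum, Fintype.sum_prod_type]
    refine Finset.sum_congr rfl fun i _ => Finset.sum_congr rfl fun j _ => ?_
    push_cast
    ring

/-- the abc inequality at sparse triples -/
theorem abc_sparse (S : Finset ℕ) (hS : ∀ p ∈ S, p.Prime) (l m : ℕ) (B ε : ℝ) (hε : 0 < ε) :
    ∃ (δ C : ℝ), 0 < δ ∧ 0 < C ∧ ∀ (a b c : ℕ), 0 < a → 0 < b → a.Coprime b → a + b = c →
      ∀ (ρ : ℕ) (t : ℚ), 0 < ρ → (ρ : ℚ) ^ m = a * b * c * t →
      IsSparse S l (B * (c : ℝ) ^ δ) a → IsSparse S l (B * (c : ℝ) ^ δ) b →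
      IsSparse S l (B * (c : ℝ) ^ δ) ρ → IsSparse S l (B * (c : ℝ) ^ δ) t →
      (c : ℝ) ≤ C * (ρ : ℝ) ^ (1 + ε) := by
  obtain ⟨δ, C, hδ, hmain⟩ := Pool.Agent.Y724.T4.abq_core ℚ (Module.finrank_self ℚ) S hS l m B ε hε
  refine ⟨δ, Real.exp C, hδ, Real.exp_pos _, ?_⟩
  intro a b c ha hb hab hsum ρ t hρ ht h1 h2 h3 h4
  have h5 := hmain a b c ha hb hab hsum ρ t hρ ht (fun i => by
    fin_cases i
    · exact h1
    · exact h2
    · exact h3
    · exact h4)
  have hc : (0 : ℝ) < c := by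
    have : 0 < c := by omega
    exact_mod_cast this
  have hρR : (0 : ℝ) < ρ := by exact_mod_cast hρ
  have h6 := Real.exp_le_exp.2 h5
  rw [Real.exp_log hc, Real.exp_add, mul_comm (1 + ε), Real.exp_mul, Real.exp_log hρR, mul_comm] at h6
  exact h6

/-- real number estimate: from the abc inequality to the lower bound for `D` -/
theorem lower_bound {C ε c x y D : ℝ} (hC : 0 < C) (hε : 0 < ε) (hc : 1 ≤ c) (hx : 0 < x)
    (hy : 0 < y) (hD : 0 < D) (hxc : x ^ (3 : ℕ) ≤ c) (hyc : y ^ (2 : ℕ) ≤ c)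
    (h : c ≤ C * (x * y * D) ^ (1 + ε)) :
    C ^ (-(1 / (1 + ε))) * c ^ (1 / 6 - ε) ≤ D := by
  have hc0 : 0 < c := by linarith
  have h1 : x ≤ c ^ (1 / 3 : ℝ) := by
    have h2 := Real.rpow_le_rpow (by positivity) hxc (by norm_num : (0 : ℝ) ≤ 1 / 3)
    have h3 : (x ^ (3 : ℕ)) ^ (1 / 3 : ℝ) = x := by
      rw [← Real.rpow_natCast, ← Real.rpow_mul hx.le]
      norm_num
    linarith
  have h2 : y ≤ c ^ (1 / 2 : ℝ) := by
    have h2 := Real.rpow_le_rpow (by positivity) hyc (by norm_num : (0 : ℝ) ≤ 1 / 2)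
    have h3 : (y ^ (2 : ℕ)) ^ (1 / 2 : ℝ) = y := by
      rw [← Real.rpow_natCast, ← Real.rpow_mul hy.le]
      norm_num
    linarith
  have h3 : x * y * D ≤ c ^ (5 / 6 : ℝ) * D := by
    have h4 : x * y ≤ c ^ (1 / 3 : ℝ) * c ^ (1 / 2 : ℝ) := mul_le_mul h1 h2 hy.le (by positivity)
    rw [← Real.rpow_add hc0] at h4
    norm_num at h4
    exact mul_le_mul_of_nonneg_right h4 hD.le
  have hpos : 0 < 1 + ε := by linarith
  have h4 : c ^ (1 / (1 + ε)) ≤ C ^ (1 / (1 + ε)) * (c ^ (5 / 6 : ℝ) * D) := by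
    have h5 := Real.rpow_le_rpow hc0.le h (by positivity : (0 : ℝ) ≤ 1 / (1 + ε))
    rw [Real.mul_rpow hC.le (by positivity), ← Real.rpow_mul (by positivity),
      mul_one_div_cancel hpos.ne', Real.rpow_one] at h5
    exact h5.trans (mul_le_mul_of_nonneg_left h3 (by positivity))
  have h5 : c ^ (1 / 6 - ε) * c ^ (5 / 6 : ℝ) ≤ c ^ (1 / (1 + ε)) := by
    rw [← Real.rpow_add hc0]
    refine Real.rpow_le_rpow_of_exponent_le hc ?_
    rw [le_div_iff₀ hpos]
    nlinarith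
  have h6 : c ^ (1 / 6 - ε) * c ^ (5 / 6 : ℝ) ≤
      (C ^ (1 / (1 + ε)) * D) * c ^ (5 / 6 : ℝ) := by
    refine (h5.trans h4).trans (le_of_eq ?_)
    ring
  have h7 : c ^ (1 / 6 - ε) ≤ C ^ (1 / (1 + ε)) * D :=
    le_of_mul_le_mul_right h6 (by positivity)
  rw [Real.rpow_neg hC.le, inv_mul_le_iff₀ (by positivity)]
  exact h7

theorem IsSUnit.inv {S : Finset ℕ} {u : ℚ} (hu : IsSUnit S u) : IsSUnit S u⁻¹ := by
  obtain ⟨σ, e, hσ, rfl⟩ := hu
  refine ⟨σ, fun p => -e p, hσ, ?_⟩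
  have h : ∏ p ∈ S, (p : ℚ) ^ (-e p) = (∏ p ∈ S, (p : ℚ) ^ e p)⁻¹ := by
    rw [← Finset.prod_inv_distrib]
    exact Finset.prod_congr rfl fun p _ => zpow_neg _ _
  rw [h, mul_inv]
  rcases hσ with rfl | rfl <;> simp

theorem IsSUnit.neg {S : Finset ℕ} {u : ℚ} (hu : IsSUnit S u) : IsSUnit S (-u) := by
  obtain ⟨σ, e, hσ, rfl⟩ := hu
  refine ⟨-σ, e, ?_, by push_cast; ring⟩
  rcases hσ with rfl | rfl <;> simp

theorem IsSparse.smul {S : Finset ℕ} (hS : ∀ p ∈ S, p.Prime) {l : ℕ} {R : ℝ} {z v : ℚ}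
    (hv : IsSUnit S v) (h : IsSparse S l R z) : IsSparse S l R (v * z) := by
  obtain ⟨u, k, hu, hk, hz⟩ := h
  refine ⟨fun j => v * u j, k, fun j => hv.mul hS (hu j), hk, ?_⟩
  rw [hz, Finset.mul_sum]
  exact Finset.sum_congr rfl fun j _ => by ring

/-- positive coprime sparse `x`, `y` -/
theorem main_pos (S : Finset ℕ) (hS : ∀ p ∈ S, p.Prime) (l : ℕ) (B ε : ℝ) (hB : 1 ≤ B)
    (hε : 0 < ε) (hε6 : ε ≤ 1 / 6) :
    ∃ (δ C : ℝ), 0 < δ ∧ 0 < C ∧ ∀ (x y D E s : ℕ), 0 < x → 0 < y → 0 < E → 0 < s → D = s * E →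
      IsSUnit S s → x.Coprime y →
      (y ^ 2 = x ^ 3 + D ∨ x ^ 3 = y ^ 2 + D ∨ x ^ 3 + y ^ 2 = D) →
      IsSparse S l (B * ((max x y : ℕ) : ℝ) ^ δ) x → IsSparse S l (B * ((max x y : ℕ) : ℝ) ^ δ) y →
      C * ((max (x ^ 3) (y ^ 2) : ℕ) : ℝ) ^ (1 / 6 - ε) ≤ E := by
  set d : ℕ := l * l + l * l * l with hd
  set L : ℕ := l * l + l * l * l + d + l * l * d + l * (d * d) with hL
  obtain ⟨δ, C, hδ, hC, hmain⟩ := abc_sparse S hS L 3 (B ^ 7) ε hε
  refine ⟨δ / 7, C ^ (-(1 / (1 + ε))), by positivity, by positivity, ?_⟩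
  intro x y D E s hx hy hE hs hDE hsu hxy hcase hsx hsy
  have hD : 0 < D := by rw [hDE]; positivity
  set M : ℝ := ((max x y : ℕ) : ℝ) with hM
  set c0 : ℕ := max (x ^ 3) (y ^ 2) with hc0
  set c : ℕ := max c0 (if x ^ 3 + y ^ 2 = D then D else 0) with hc
  have hM1 : 1 ≤ M := by
    have : 1 ≤ max x y := le_max_of_le_left hx
    exact Nat.one_le_cast.2 this
  have hx3 : x ≤ x ^ 3 := Nat.le_self_pow (by norm_num) x
  have hy2 : y ≤ y ^ 2 := Nat.le_self_pow (by norm_num) y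
  have hc0c : c0 ≤ c := le_max_left _ _
  have hMc : M ≤ (c : ℝ) := by
    have : max x y ≤ c := (max_le_max hx3 hy2).trans hc0c
    exact Nat.cast_le.2 this
  have hc1 : 1 ≤ (c : ℝ) := hM1.trans hMc
  set R : ℝ := B * M ^ (δ / 7) with hR
  have hMδ : 1 ≤ M ^ (δ / 7) := Real.one_le_rpow hM1 (by positivity)
  have hR1 : 1 ≤ R := by
    rw [hR]
    nlinarith
  have hR0 : 0 ≤ R := by linarith
  have hR7 : R ^ 7 ≤ B ^ 7 * (c : ℝ) ^ δ := by
    rw [hR, mul_pow]
    refine mul_le_mul_of_nonneg_left ?_ (by positivity)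
    rw [← Real.rpow_natCast, ← Real.rpow_mul (by linarith)]
    have : δ / 7 * ((7 : ℕ) : ℝ) = δ := by
      push_cast
      ring
    rw [this]
    exact Real.rpow_le_rpow (by linarith) hMc hδ.le
  have hT0 : 0 ≤ B ^ 7 * (c : ℝ) ^ δ := le_trans (by positivity) hR7
  -- powers of `R`
  have hpow : ∀ n : ℕ, n ≤ 7 → R ^ n ≤ B ^ 7 * (c : ℝ) ^ δ := fun n hn =>
    (pow_le_pow_right₀ hR1 hn).trans hR7
  have e2 : IsSparse S (l * l) (R ^ 2) ((y : ℚ) * y) := by
    have := IsSparse.mul hS hR0 hR0 hsy hsy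
    rwa [← pow_two R] at this
  have e3 : IsSparse S (l * l * l) (R ^ 3) ((x : ℚ) * x * x) := by
    have := IsSparse.mul hS (mul_nonneg hR0 hR0) hR0 (IsSparse.mul hS hR0 hR0 hsx hsx) hsx
    have h : R * R * R = R ^ 3 := by ring
    rwa [h] at this
  have h23 : R ^ 2 ≤ R ^ 3 := pow_le_pow_right₀ hR1 (by norm_num)
  have eD : IsSparse S d (R ^ 3) (D : ℚ) := by
    have e2' := e2.mono le_rfl h23 (by positivity)
    have f1 := IsSparse.add (by positivity) e2' e3.neg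
    have f2 := f1.neg
    rcases hcase with h | h | h
    · have : ((D : ℕ) : ℚ) = (y : ℚ) * y + -((x : ℚ) * x * x) := by
        have h' : (y : ℚ) ^ 2 = (x : ℚ) ^ 3 + D := by exact_mod_cast h
        linear_combination -h'
      rw [this]
      exact f1
    · have : ((D : ℕ) : ℚ) = -((y : ℚ) * y + -((x : ℚ) * x * x)) := by
        have h' : (x : ℚ) ^ 3 = (y : ℚ) ^ 2 + D := by exact_mod_cast h
        linear_combination -h'
      rw [this]
      exact f2
    · have : ((D : ℕ) : ℚ) = (y : ℚ) * y + ((x : ℚ) * x * x) := by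
        have h' : (x : ℚ) ^ 3 + (y : ℚ) ^ 2 = D := by exact_mod_cast h
        linear_combination -h'
      rw [this]
      exact IsSparse.add (by positivity) e2' e3
  have eρ : IsSparse S (l * l * d) (R ^ 5) ((x : ℚ) * y * D) := by
    have := IsSparse.mul hS (mul_nonneg hR0 hR0) (by positivity) (IsSparse.mul hS hR0 hR0 hsx hsy) eD
    have h : R * R * R ^ 3 = R ^ 5 := by ring
    rwa [h] at this
  have et : IsSparse S (l * (d * d)) (R ^ 7) ((y : ℚ) * (D * D)) := by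
    have := IsSparse.mul hS hR0 (by positivity) hsy (IsSparse.mul hS (by positivity) (by positivity) eD eD)
    have h : R * (R ^ 3 * R ^ 3) = R ^ 7 := by ring
    rwa [h] at this
  have g2 : IsSparse S L (B ^ 7 * (c : ℝ) ^ δ) ((y : ℚ) * y) :=
    e2.mono (by omega) (hpow 2 (by norm_num)) hT0
  have g3 : IsSparse S L (B ^ 7 * (c : ℝ) ^ δ) ((x : ℚ) * x * x) :=
    e3.mono (by omega) (hpow 3 (by norm_num)) hT0
  have gD : IsSparse S L (B ^ 7 * (c : ℝ) ^ δ) (D : ℚ) :=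
    eD.mono (by omega) (hpow 3 (by norm_num)) hT0
  have hsq : (s : ℚ) ≠ 0 := by exact_mod_cast hs.ne'
  have hDq : (D : ℚ) = s * E := by
    rw [hDE]
    push_cast
    ring
  have gρ : IsSparse S L (B ^ 7 * (c : ℝ) ^ δ) (((x * y * E : ℕ)) : ℚ) := by
    have h1 : (((x * y * E : ℕ)) : ℚ) = (s : ℚ)⁻¹ * ((x : ℚ) * y * D) := by
      rw [hDq]
      push_cast
      field_simp
    rw [h1]
    exact (eρ.mono (by omega) (hpow 5 (by norm_num)) hT0).smul hS hsu.inv
  set t : ℚ := (s : ℚ)⁻¹ * ((s : ℚ)⁻¹ * ((s : ℚ)⁻¹ * ((y : ℚ) * (D * D)))) with ht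
  have gt : IsSparse S L (B ^ 7 * (c : ℝ) ^ δ) t :=
    (((et.mono (by omega) (hpow 7 le_rfl) hT0).smul hS hsu.inv).smul hS hsu.inv).smul hS hsu.inv
  have hrt : (((x * y * E : ℕ)) : ℚ) ^ 3 = (x : ℚ) ^ 3 * y ^ 2 * D * t := by
    rw [ht, hDq]
    push_cast
    field_simp
  have hcop : (x ^ 3).Coprime (y ^ 2) := Nat.Coprime.pow _ _ hxy
  have gx : IsSparse S L (B ^ 7 * (c : ℝ) ^ δ) (((x ^ 3 : ℕ)) : ℚ) := by
    have : (((x ^ 3 : ℕ)) : ℚ) = (x : ℚ) * x * x := by push_cast; ring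
    rw [this]
    exact g3
  have gy : IsSparse S L (B ^ 7 * (c : ℝ) ^ δ) (((y ^ 2 : ℕ)) : ℚ) := by
    have : (((y ^ 2 : ℕ)) : ℚ) = (y : ℚ) * y := by push_cast; ring
    rw [this]
    exact g2
  have hle : (c : ℝ) ≤ C * ((x : ℝ) * y * E) ^ (1 + ε) := by
    have hρ : (((x * y * E : ℕ)) : ℝ) = (x : ℝ) * y * E := by push_cast; ring
    rw [← hρ]
    rcases hcase with h | h | h
    · have hcc : c = y ^ 2 := by
        have h1 : c0 = y ^ 2 := max_eq_right (by omega)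
        have h2 : ¬ x ^ 3 + y ^ 2 = D := by
          have : 0 < x ^ 3 := by positivity
          omega
        rw [hc, if_neg h2, h1]
        exact max_eq_left (Nat.zero_le _)
      have hab : (x ^ 3).Coprime D := by
        rw [h] at hcop
        exact (Nat.coprime_self_add_right).1 hcop
      refine hmain (x ^ 3) D c (by positivity) hD hab (by rw [hcc, h]) (x * y * E) t
        (by positivity) ?_ gx gD gρ gt
      rw [hcc, hrt]
      push_cast
      ring
    · have hcc : c = x ^ 3 := by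
        have h1 : c0 = x ^ 3 := max_eq_left (by omega)
        have h2 : ¬ x ^ 3 + y ^ 2 = D := by
          have : 0 < y ^ 2 := by positivity
          omega
        rw [hc, if_neg h2, h1]
        exact max_eq_left (Nat.zero_le _)
      have hab : (y ^ 2).Coprime D := by
        have h2 := hcop.symm
        rw [h] at h2
        exact (Nat.coprime_self_add_right).1 h2
      refine hmain (y ^ 2) D c (by positivity) hD hab (by rw [hcc, h]) (x * y * E) t
        (by positivity) ?_ gy gD gρ gt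
      rw [hcc, hrt]
      push_cast
      ring
    · have hcc : c = D := by
        rw [hc, if_pos h]
        refine max_eq_right ?_
        rw [hc0]
        exact max_le (by omega) (by omega)
      refine hmain (x ^ 3) (y ^ 2) c (by positivity) (by positivity) hcop (by rw [hcc, h])
        (x * y * E) t (by positivity) ?_ gx gy gρ gt
      rw [hcc, hrt]
      push_cast
      ring
  have hxR : (0 : ℝ) < x := by exact_mod_cast hx
  have hyR : (0 : ℝ) < y := by exact_mod_cast hy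
  have hER : (0 : ℝ) < E := by exact_mod_cast hE
  have hlow := lower_bound hC hε hc1 hxR hyR hER (by
    have : x ^ 3 ≤ c := (le_max_left _ _).trans hc0c
    exact_mod_cast this) (by
    have : y ^ 2 ≤ c := (le_max_right _ _).trans hc0c
    exact_mod_cast this) hle
  refine le_trans (mul_le_mul_of_nonneg_left ?_ (by positivity)) hlow
  exact Real.rpow_le_rpow (by positivity) (Nat.cast_le.2 hc0c) (by linarith)

/-- **Main theorem.** For every finite set `S` of primes, all `l`, all real `B` and all `ε > 0` there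
are `δ > 0` and `C` such that `log |x| < (2 + ε) log |d| + C` and `log |y| < (3 + ε) log |d| + C` for all
coprime integers `x ≠ 0`, `y ≠ 0` with `y ^ 2 = x ^ 3 + s d`, `d ≠ 0`, `s` an integer `S`-unit, such that
`x` and `y` are sums of `l` `S`-units with integer coefficients of absolute value at most
`B max(|x|, |y|) ^ δ`. -/
theorem result (S : Finset ℕ) (hS : ∀ p ∈ S, p.Prime) (l : ℕ) (B ε : ℝ) (hε : 0 < ε) :
    ∃ (δ C : ℝ), 0 < δ ∧ ∀ (x y d s : ℤ), IsCoprime x y → d ≠ 0 → IsSUnit S s →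
      y ^ 2 = x ^ 3 + s * d → x ≠ 0 → y ≠ 0 →
      IsSparse S l (B * ((max |x| |y| : ℤ) : ℝ) ^ δ) x →
      IsSparse S l (B * ((max |x| |y| : ℤ) : ℝ) ^ δ) y →
      Real.log ((|x| : ℤ) : ℝ) < (2 + ε) * Real.log ((|d| : ℤ) : ℝ) + C ∧
      Real.log ((|y| : ℤ) : ℝ) < (3 + ε) * Real.log ((|d| : ℤ) : ℝ) + C := by
  set ε' : ℝ := ε / (18 + 6 * ε) with hε'
  have hε'0 : 0 < ε' := by positivity
  have hε'1 : ε' ≤ 1 / 6 := by
    rw [hε', div_le_iff₀ (by positivity)]
    linarith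
  have hε'2 : ε' * (18 + 6 * ε) = ε := div_mul_cancel₀ _ (by positivity)
  obtain ⟨δ, C, hδ, hC, hmain⟩ := main_pos S hS l (max B 1) ε' (le_max_right _ _) hε'0 hε'1
  refine ⟨δ, (3 + ε) * |Real.log C| + 1, hδ, ?_⟩
  intro x y d s hxy hd0 hsu heq hx hy hsx hsy
  have hXZ : |x| = (x.natAbs : ℤ) := Int.abs_eq_natAbs _
  have hYZ : |y| = (y.natAbs : ℤ) := Int.abs_eq_natAbs _
  have hdZ : |d| = (d.natAbs : ℤ) := Int.abs_eq_natAbs _
  have hs0 : s ≠ 0 := by
    rintro rfl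
    obtain ⟨σ, e, hσ, he⟩ := hsu
    have h1 : (0 : ℚ) = σ * ∏ p ∈ S, (p : ℚ) ^ e p := by
      rw [← he]
      norm_num
    have h2 : ∏ p ∈ S, (p : ℚ) ^ e p ≠ 0 := Finset.prod_ne_zero_iff.2 fun p hp =>
      zpow_ne_zero _ (by exact_mod_cast (hS p hp).ne_zero)
    rcases hσ with rfl | rfl
    · exact h2 (by simpa using h1.symm)
    · exact h2 (by simpa using h1.symm)
  set X : ℕ := x.natAbs with hX
  set Y : ℕ := y.natAbs with hY
  set E : ℕ := d.natAbs with hE
  set s' : ℕ := s.natAbs with hs'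
  have hXpos : 0 < X := Int.natAbs_pos.2 hx
  have hYpos : 0 < Y := Int.natAbs_pos.2 hy
  have hEpos : 0 < E := Int.natAbs_pos.2 hd0
  have hs'pos : 0 < s' := Int.natAbs_pos.2 hs0
  have hy2 : y ^ 2 = (Y : ℤ) ^ 2 := (Int.natAbs_sq y).symm
  have hcop : X.Coprime Y := Int.isCoprime_iff_gcd_eq_one.1 hxy
  have hcastn : ∀ z : ℤ, IsSUnit S (z : ℚ) → IsSUnit S ((z.natAbs : ℕ) : ℚ) := by
    intro z hz
    rcases Int.natAbs_eq z with h | h
    · have h5 : ((z : ℤ) : ℚ) = ((z.natAbs : ℤ) : ℚ) := congrArg _ h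
      have h2 : ((z : ℤ) : ℚ) = ((z.natAbs : ℕ) : ℚ) := h5.trans (Int.cast_natCast _)
      rw [h2] at hz
      exact hz
    · have h4 : (z.natAbs : ℤ) = -z := by omega
      have h5 : ((z.natAbs : ℤ) : ℚ) = ((-z : ℤ) : ℚ) := by rw [h4]
      rw [Int.cast_natCast, Int.cast_neg] at h5
      rw [h5]
      exact hz.neg
  have hcasts : ∀ (z : ℤ) (R : ℝ), IsSparse S l R (z : ℚ) →
      IsSparse S l R ((z.natAbs : ℕ) : ℚ) := by
    intro z R hz
    rcases Int.natAbs_eq z with h | h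
    · have h5 : ((z : ℤ) : ℚ) = ((z.natAbs : ℤ) : ℚ) := congrArg _ h
      have h2 : ((z : ℤ) : ℚ) = ((z.natAbs : ℕ) : ℚ) := h5.trans (Int.cast_natCast _)
      rw [h2] at hz
      exact hz
    · have h4 : (z.natAbs : ℤ) = -z := by omega
      have h5 : ((z.natAbs : ℤ) : ℚ) = ((-z : ℤ) : ℚ) := by rw [h4]
      rw [Int.cast_natCast, Int.cast_neg] at h5
      rw [h5]
      exact hz.neg
  have hcase : Y ^ 2 = X ^ 3 + s' * E ∨ X ^ 3 = Y ^ 2 + s' * E ∨ X ^ 3 + Y ^ 2 = s' * E := by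
    have h1 : (s' * E : ℤ) = |s * d| := by
      rw [abs_mul, Int.abs_eq_natAbs, Int.abs_eq_natAbs]
    have h2 : s * d = (Y : ℤ) ^ 2 - x ^ 3 := by
      rw [← hy2, heq]
      ring
    rw [h2] at h1
    rcases lt_or_gt_of_ne hx with h | h
    · right
      right
      have h3 : x = -(X : ℤ) := by
        rw [hX]
        omega
      have h4 : (Y : ℤ) ^ 2 - x ^ 3 = (X : ℤ) ^ 3 + (Y : ℤ) ^ 2 := by
        rw [h3]
        ring
      rw [h4, abs_of_nonneg (by positivity)] at h1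
      zify
      linarith
    · have hxX : x = (X : ℤ) := (Int.natAbs_of_nonneg h.le).symm
      rw [hxX] at h1
      rcases le_total 0 ((Y : ℤ) ^ 2 - (X : ℤ) ^ 3) with h | h
      · left
        rw [abs_of_nonneg h] at h1
        zify
        linarith
      · right
        left
        rw [abs_of_nonpos h] at h1
        zify
        linarith
  have hM : ((max |x| |y| : ℤ) : ℝ) = ((max X Y : ℕ) : ℝ) := by
    rw [hXZ, hYZ]
    push_cast
    rfl
  have hM1 : (0 : ℝ) ≤ ((max X Y : ℕ) : ℝ) ^ δ := by positivity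
  rw [hM] at hsx hsy
  have hsx' : IsSparse S l (max B 1 * ((max X Y : ℕ) : ℝ) ^ δ) (X : ℚ) :=
    (hcasts x _ hsx).mono le_rfl (mul_le_mul_of_nonneg_right (le_max_left _ _) hM1) (by positivity)
  have hsy' : IsSparse S l (max B 1 * ((max X Y : ℕ) : ℝ) ^ δ) (Y : ℚ) :=
    (hcasts y _ hsy).mono le_rfl (mul_le_mul_of_nonneg_right (le_max_left _ _) hM1) (by positivity)
  have hfin := hmain X Y (s' * E) E s' hXpos hYpos hEpos hs'pos rfl (hcastn s hsu) hcop hcase
    hsx' hsy'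
  set c : ℝ := ((max (X ^ 3) (Y ^ 2) : ℕ) : ℝ) with hc
  have hXR : (1 : ℝ) ≤ X := by exact_mod_cast hXpos
  have hYR : (1 : ℝ) ≤ Y := by exact_mod_cast hYpos
  have hER : (1 : ℝ) ≤ E := by exact_mod_cast hEpos
  have hXc : (X : ℝ) ^ (3 : ℕ) ≤ c := by
    have : X ^ 3 ≤ max (X ^ 3) (Y ^ 2) := le_max_left _ _
    rw [hc]
    exact_mod_cast this
  have hYc : (Y : ℝ) ^ (2 : ℕ) ≤ c := by
    have : Y ^ 2 ≤ max (X ^ 3) (Y ^ 2) := le_max_right _ _
    rw [hc]
    exact_mod_cast this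
  have hcpos : 0 < c := lt_of_lt_of_le (by positivity) hXc
  have hlog := Real.log_le_log (by positivity) hfin
  rw [Real.log_mul hC.ne' (by positivity), Real.log_rpow hcpos] at hlog
  have hlx : 3 * Real.log X ≤ Real.log c := by
    have := Real.log_le_log (by positivity) hXc
    rw [Real.log_pow] at this
    exact_mod_cast this
  have hly : 2 * Real.log Y ≤ Real.log c := by
    have := Real.log_le_log (by positivity) hYc
    rw [Real.log_pow] at this
    exact_mod_cast this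
  have hd' : 0 ≤ Real.log E := Real.log_nonneg hER
  have hX0 : 0 ≤ Real.log X := Real.log_nonneg hXR
  have hY0 : 0 ≤ Real.log Y := Real.log_nonneg hYR
  have hK : -Real.log C ≤ |Real.log C| := neg_le_abs _
  have hK0 : 0 ≤ |Real.log C| := abs_nonneg _
  have hex : 0 ≤ 1 / 6 - ε' := by linarith
  rw [hXZ, hYZ, hdZ, Int.cast_natCast, Int.cast_natCast, Int.cast_natCast]
  have hbx : (1 / 6 - ε') * (3 * Real.log X) ≤ Real.log E + |Real.log C| := by
    have := mul_le_mul_of_nonneg_left hlx hex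
    linarith
  have hby : (1 / 6 - ε') * (2 * Real.log Y) ≤ Real.log E + |Real.log C| := by
    have := mul_le_mul_of_nonneg_left hly hex
    linarith
  constructor
  · have h1 := mul_le_mul_of_nonneg_left hbx (by linarith : (0 : ℝ) ≤ 2 + ε)
    have h2 : (2 + ε) * ((1 / 6 - ε') * (3 * Real.log X)) =
        Real.log X + (ε / 2 - ε' * (6 + 3 * ε)) * Real.log X := by ring
    have h3 : 0 ≤ ε / 2 - ε' * (6 + 3 * ε) := by nlinarith
    have h4 := mul_nonneg h3 hX0
    have h5 : (2 + ε) * |Real.log C| ≤ (3 + ε) * |Real.log C| := by nlinarith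
    linarith
  · have h1 := mul_le_mul_of_nonneg_left hby (by linarith : (0 : ℝ) ≤ 3 + ε)
    have h2 : (3 + ε) * ((1 / 6 - ε') * (2 * Real.log Y)) =
        Real.log Y + (ε / 3 - ε' * (6 + 2 * ε)) * Real.log Y := by ring
    have h3 : 0 ≤ ε / 3 - ε' * (6 + 2 * ε) := by nlinarith
    have h4 := mul_nonneg h3 hY0
    linarith

end Pool.Agent.Results.MP_9d7cd1_nt.SparseSolutions
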